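import Pool.Agent.K1H18.GepFam

/-!
For all `a ≥ 4` and `b ≥ 2 a - 2` the non-trivial `(a, b)`-geproci sets in projective three-space
form continuum many projective equivalence classes.
-/

set_option autoImplicit false

open Cardinal MvPolynomial
open Pool.Agent.Results.MP_586029_ag.GeprociMatroid
  (V4 V3 P3 R3 imageIdeal IsDegenerate IsGrid ProjectivelyEquivalent)

namespace Pool.Agent.Results.MP_e29873_ag.Moduli

/-- The homogeneous ideal `I` is generated by a regular sequence consisting of a form of degree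
`a` and a form of degree `b`. -/
def IsCompleteIntersection (a b : ℕ) (I : Ideal R3) : Prop :=
  ∃ F G : R3, F.IsHomogeneous a ∧ G.IsHomogeneous b ∧
    RingTheory.Sequence.IsRegular R3 [F, G] ∧ I = Ideal.span {F, G}

/-- `Z` is an `(a, b)`-geproci set: a finite set of `a * b` points such that, for a general point
`P` (outside the zero set of some nonzero polynomial `D`), the ideal of the image of `Z` under the
projection from `P` to a plane is a complete intersection of type `(a, b)`. The projection from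
`P` is given by a linear map `π` from `ℂ⁴` to `ℂ³` whose kernel is the line `P`. -/
def IsGeproci (a b : ℕ) (Z : Set P3) : Prop :=
  Z.Finite ∧ Z.ncard = a * b ∧ ∃ D : MvPolynomial (Fin 4) ℂ, D ≠ 0 ∧ ∀ P : V4, eval P D ≠ 0 →
    ∀ π : V4 →ₗ[ℂ] V3, LinearMap.ker π = Submodule.span ℂ {P} →
      IsCompleteIntersection a b (imageIdeal Z π)

/-- `Z` is a non-trivial `(a, b)`-geproci set: it does not lie in a plane and is not a grid. -/
def IsNontrivialGeproci (a b : ℕ) (Z : Set P3) : Prop :=
  IsGeproci a b Z ∧ ¬ IsDegenerate Z ∧ ¬ IsGrid Z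

/-- Projective equivalence of non-trivial `(a, b)`-geproci sets. -/
def projectiveEquivalence (a b : ℕ) : Setoid {Z : Set P3 // IsNontrivialGeproci a b Z} where
  r Z Z' := ProjectivelyEquivalent Z.1 Z'.1
  iseqv := ⟨fun Z => Pool.Agent.Y744.GP.pe_refl Z.1, fun h => Pool.Agent.Y744.GP.pe_symm h,
    fun h h' => Pool.Agent.Y744.GP.pe_trans h h'⟩

open Pool.Agent.K1H18.Gep

lemma isNontrivial_Zc {N e m : ℕ} (hN : 3 ≤ N) (he : e ≤ 1) (hm : 4 ≤ m) (hmN : m ≤ N + 1)
    {c : ℂ} (hc0 : c ≠ 0) (hc1 : c ≠ 1) : IsNontrivialGeproci m (e + 2 * N) (Zc N e m c) := by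
  have hN0 : 0 < N := by omega
  obtain ⟨Λ, hΛ, hroot⟩ := exists_enum hN0 he hc0 hc1
  have hA := arr0 hN0 hmN
  refine ⟨?_, not_isDegenerate_Zc hN hm c, not_isGrid_Zc hN hm c⟩
  rw [Zc_eq hroot]
  obtain ⟨h1, h2⟩ := ncard_ZZ hA (S0_ne_zero N m) (T0_ne_zero N m) hΛ
  refine ⟨h1, h2, DD N e ((-1) ^ N) c (S0 N m) (T0 N m),
    DD_ne_zero (by omega) hN0 (pow_ne_zero _ (by norm_num)) c hA, ?_⟩
  intro P hP π hπ
  exact ci_aux (by omega) hN0 hA hΛ (fun j => (hroot _).mpr ⟨j, rfl⟩) (DD_general hP) hπ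

lemma mk_P3_le : #P3 ≤ 𝔠 := by
  have h1 : #P3 ≤ #V4 := by
    apply mk_le_of_injective (f := fun z : P3 => z.rep)
    intro z z' h
    have h2 : z.rep = z'.rep := h
    rw [← z.mk_rep, ← z'.mk_rep]
    congr 1
  refine h1.trans (le_of_eq ?_)
  have h2 : #V4 = 𝔠 ^ (4 : ℕ) := by
    rw [mk_arrow, lift_id, lift_id, mk_complex, mk_fin, ← power_natCast]
  rw [h2]
  exact power_nat_eq aleph0_le_continuum (by norm_num)

lemma mk_classes_le (a b : ℕ) : #(Quotient (projectiveEquivalence a b)) ≤ 𝔠 := by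
  have h1 : #(Quotient (projectiveEquivalence a b)) ≤
      #{Z : Set P3 // IsNontrivialGeproci a b Z} := mk_quotient_le
  refine h1.trans ?_
  have h2 : #{Z : Set P3 // IsNontrivialGeproci a b Z} ≤ #(Finset P3) := by
    apply mk_le_of_injective (f := fun Z : {Z : Set P3 // IsNontrivialGeproci a b Z} =>
      Z.2.1.1.toFinset)
    intro Z Z' h
    apply Subtype.ext
    have h3 := congrArg (fun F : Finset P3 => (F : Set P3)) h
    simpa using h3
  refine h2.trans ?_
  rcases finite_or_infinite P3 with h | h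
  · exact (lt_aleph0_of_finite _).le.trans aleph0_le_continuum
  · rw [mk_finset_of_infinite]
    exact mk_P3_le

/-- **Main result.** For all `a ≥ 4` and `b ≥ 2 a - 2` the set of projective equivalence classes
of non-trivial `(a, b)`-geproci sets in projective three-space has the cardinality of the
continuum. -/
theorem result (a b : ℕ) (ha : 4 ≤ a) (hb : 2 * a - 2 ≤ b) :
    #(Quotient (projectiveEquivalence a b)) = 𝔠 := by
  apply le_antisymm (mk_classes_le a b)
  obtain ⟨N, e, hN, he, hmN, rfl⟩ : ∃ N e : ℕ, 3 ≤ N ∧ e ≤ 1 ∧ a ≤ N + 1 ∧ b = e + 2 * N :=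
    ⟨b / 2, b % 2, by omega, by omega, by omega, by omega⟩
  let A : Type := {c : ℂ // c ≠ 0 ∧ c ≠ 1}
  have hA : 𝔠 ≤ #A := by
    have h1 : #ℂ ≤ #A + #({0, 1} : Set ℂ) := by
      have h2 : (Set.univ : Set ℂ) = {c : ℂ | c ≠ 0 ∧ c ≠ 1} ∪ {0, 1} := by
        ext c
        simp only [Set.mem_univ, Set.mem_union, Set.mem_ofPred_eq, Set.mem_insert_iff,
          Set.mem_singleton_iff, true_iff]
        tauto
      have h3 := mk_union_le {c : ℂ | c ≠ 0 ∧ c ≠ 1} ({0, 1} : Set ℂ)
      rw [← h2, mk_univ] at h3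
      exact h3
    rw [mk_complex] at h1
    have h4 : #({0, 1} : Set ℂ) < ℵ₀ := by
      rw [lt_aleph0_iff_set_finite]
      exact Set.toFinite _
    by_contra hlt
    push Not at hlt
    have h5 := add_lt_of_lt aleph0_le_continuum hlt (h4.trans aleph0_lt_continuum)
    exact absurd h1 (not_le.mpr h5)
  let f : A → Quotient (projectiveEquivalence a (e + 2 * N)) := fun c =>
    Quotient.mk _ ⟨Zc N e a c.1, isNontrivial_Zc hN he ha hmN c.2.1 c.2.2⟩
  by_contra hlt
  push Not at hlt
  have h1 : #A ≤ #(Quotient (projectiveEquivalence a (e + 2 * N))) * ℵ₀ := by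
    apply mk_le_mk_mul_of_mk_preimage_le f
    intro q
    obtain ⟨Z, rfl⟩ := Quotient.exists_rep q
    apply le_of_lt
    rw [lt_aleph0_iff_set_finite]
    have h2 := (finite_class (e := e) (m := a) hN (by omega) Z.2.1.1).preimage
      (f := (Subtype.val : A → ℂ)) Subtype.val_injective.injOn
    refine h2.subset ?_
    intro c hc
    have h3 : f c = Quotient.mk _ Z := hc
    exact Quotient.exact h3
  have h2 := mul_lt_of_lt aleph0_le_continuum hlt aleph0_lt_continuum
  exact absurd hA (not_le.mpr (h1.trans_lt h2))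

end Pool.Agent.Results.MP_e29873_ag.Moduli
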